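import Pool.Agent.Helper95.HV.Stmts
import Pool.Agent.Helper53.LN.VIR
import Pool.Agent.Helper14.PW.POEb

/-!
# Row V2R, part 1: pointwise facts and exact algebra
-/

set_option autoImplicit false

namespace Pool.Agent.Helper20.HV

open MeasureTheory Filter Pool.Agent.Helper95 Pool.Agent.Helper95.PW Pool.Agent.Helper95.LN
open Pool.Agent.Helper95.CF Pool.Agent.Helper95.HV Pool.Agent.Helper53.LN Pool.Agent.Helper14.PW

/-- symmetry of second derivatives -/
theorem pd_comm {g : R3 → ℝ} (hg : ContDiff ℝ (⊤ : ℕ∞) g) (i j : Fin 3) (x : R3) :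
    pd i (pd j g) x = pd j (pd i g) x := by
  have hd : DifferentiableAt ℝ (fderiv ℝ g) x :=
    ((hg.fderiv_right (m := (⊤ : ℕ∞)) (by norm_num)).differentiable (by norm_num)) x
  have h1 : ∀ (a b : R3), fderiv ℝ (fun y => fderiv ℝ g y a) x b = fderiv ℝ (fderiv ℝ g) x b a := by
    intro a b
    rw [fderiv_clm_apply hd (differentiableAt_const a)]
    simp
  have hs : IsSymmSndFDerivAt ℝ g x := by
    apply (hg.contDiffAt (x := x)).isSymmSndFDerivAt
    rw [minSmoothness_of_isRCLikeNormedField]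
    exact WithTop.coe_le_coe.2 (le_top : (2 : ℕ∞) ≤ ⊤)
  show fderiv ℝ (fun y => fderiv ℝ g y (Pi.single j 1)) x (Pi.single i 1) =
    fderiv ℝ (fun y => fderiv ℝ g y (Pi.single i 1)) x (Pi.single j 1)
  rw [h1, h1]
  exact hs _ _

theorem pd_sub {f g : R3 → ℝ} (hf : ContDiff ℝ (⊤ : ℕ∞) f) (hg : ContDiff ℝ (⊤ : ℕ∞) g)
    (i : Fin 3) (y : R3) : pd i (fun z => f z - g z) y = pd i f y - pd i g y := by
  have h1 : DifferentiableAt ℝ f y := (hf.differentiable (by simp)) y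
  have h2 : DifferentiableAt ℝ g y := (hg.differentiable (by simp)) y
  unfold pd
  rw [fderiv_fun_sub h1 h2]
  simp

theorem pd_pd_sub {f g : R3 → ℝ} (hf : ContDiff ℝ (⊤ : ℕ∞) f) (hg : ContDiff ℝ (⊤ : ℕ∞) g)
    (i l : Fin 3) (y : R3) :
    pd l (pd i (fun z => f z - g z)) y = pd l (pd i f) y - pd l (pd i g) y := by
  have h1 : pd i (fun z => f z - g z) = fun z => pd i f z - pd i g z := by
    funext z
    exact pd_sub hf hg i z
  rw [h1]
  exact pd_sub (poe_pd_cd hf i) (poe_pd_cd hg i) l y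

/-- Lipschitz bound -/
theorem lip3 {f : R3 → ℝ} (hf : ContDiff ℝ (⊤ : ℕ∞) f) {P : ℝ} (h : ∀ i y, |pd i f y| ≤ P)
    (x y : R3) : |f x - f y| ≤ 3 * P * nr (x - y) :=
  poe_lip (hf.differentiable (by simp)) (le_trans (abs_nonneg _) (h 0 x)) h x y

/-- bound of `Tq` -/
theorem Tq_le {ξ v w : R3} {V W : ℝ} (hV : ∀ i, |v i| ≤ V) (hW : ∀ i, |w i| ≤ W)
    (hξ : 0 < nr ξ) : |Tq ξ v w| ≤ 30 * V * W / nr ξ ^ 3 := by
  have hV0 : 0 ≤ V := le_trans (abs_nonneg _) (hV 0)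
  have hW0 : 0 ≤ W := le_trans (abs_nonneg _) (hW 0)
  have h1 : ∀ {u : R3} {U : ℝ}, (∀ i, |u i| ≤ U) → |∑ m, u m * ξ m| ≤ 3 * U * nr ξ := by
    intro u U hU
    have hU0 : 0 ≤ U := le_trans (abs_nonneg _) (hU 0)
    refine (Finset.abs_sum_le_sum_abs _ _).trans ?_
    have h2 : ∀ m, |u m * ξ m| ≤ U * nr ξ := fun m => by
      rw [abs_mul]
      exact mul_le_mul (hU m) (VIR_comp ξ m) (abs_nonneg _) hU0
    refine (Finset.sum_le_sum fun m _ => h2 m).trans (le_of_eq ?_)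
    rw [Finset.sum_const]
    simp
    ring
  have h3 : |∑ m, v m * w m| ≤ 3 * V * W := by
    refine (Finset.abs_sum_le_sum_abs _ _).trans ?_
    have h2 : ∀ m, |v m * w m| ≤ V * W := fun m => by
      rw [abs_mul]
      exact mul_le_mul (hV m) (hW m) (abs_nonneg _) hV0
    refine (Finset.sum_le_sum fun m _ => h2 m).trans (le_of_eq ?_)
    rw [Finset.sum_const]
    simp
    ring
  unfold Tq
  have h4 : |3 * (∑ m, v m * ξ m) * (∑ m, w m * ξ m) / nr ξ ^ 5| ≤ 27 * V * W / nr ξ ^ 3 := by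
    rw [abs_div, abs_mul, abs_mul, abs_of_pos (show (0 : ℝ) < nr ξ ^ 5 by positivity),
      abs_of_pos (show (0 : ℝ) < 3 by norm_num), div_le_div_iff₀ (by positivity) (by positivity)]
    have h5 : |∑ m, v m * ξ m| * |∑ m, w m * ξ m| ≤ (3 * V * nr ξ) * (3 * W * nr ξ) :=
      mul_le_mul (h1 hV) (h1 hW) (abs_nonneg _) (by positivity)
    have h6 : (0 : ℝ) ≤ 3 * nr ξ ^ 3 := by positivity
    have h7 := mul_le_mul_of_nonneg_left h5 h6
    calc _ = 3 * nr ξ ^ 3 * (|∑ m, v m * ξ m| * |∑ m, w m * ξ m|) := by ring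
      _ ≤ _ := h7
      _ = _ := by ring
  have h8 : |(∑ m, v m * w m) / nr ξ ^ 3| ≤ 3 * V * W / nr ξ ^ 3 := by
    rw [abs_div, abs_of_pos (show (0 : ℝ) < nr ξ ^ 3 by positivity)]
    exact div_le_div_of_nonneg_right h3 (by positivity)
  refine (abs_sub _ _).trans ?_
  refine (add_le_add h4 h8).trans (le_of_eq ?_)
  ring

/-- small part of a pair -/
noncomputable def s1 {n : ℕ} (a b : R3 → ℝ) (x : Cf n) (k l : Fin n) : ℝ :=
  Tq (x k - x l) (gv a (x k) - gv a (x l)) (gv a (x k) - gv a (x l)) -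
    2 * Tq (x k - x l) (gv a (x k) - gv a (x l)) (gv b (x k) - gv b (x l)) -
    (∑ i, (gq a (x k) i - gq a (x l) i) * (x k i - x l i)) / nr (x k - x l) ^ 3

/-- part of the attraction -/
noncomputable def s2 {n M : ℕ} (X : Fin M → R3) (a b : R3 → ℝ) (x : Cf n) (k : Fin n)
    (j : Fin M) : ℝ :=
  (∑ i, gq a (x k) i * (x k i - X j i)) / nr (x k - X j) ^ 3 -
    Tq (x k - X j) (gv a (x k)) (gv a (x k)) + 2 * Tq (x k - X j) (gv a (x k)) (gv b (x k))

theorem D2_split {n M : ℕ} (X : Fin M → R3) (Z : Fin M → ℝ) {g a b β : R3 → ℝ}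
    (h1 : ∀ y i, pd i g y = pd i a y - pd i b y)
    (h2 : ∀ y i, gq g y i = gq a y i + gq b y i - pd i β y) (x : Cf n) :
    D2 X Z g x = D2 X Z b x + 2 * Vir X Z β x + (∑ k, ∑ l, if k < l then s1 a b x k l else 0) +
      ∑ k, ∑ j, Z j * s2 X a b x k j := by
  have e1 : ∀ k l, (if k < l then
      Tq (x k - x l) (gv g (x k) - gv g (x l)) (gv g (x k) - gv g (x l)) -
      (∑ i, (gq g (x k) i - gq g (x l) i) * (x k i - x l i)) / nr (x k - x l) ^ 3 else 0) =
      (if k < l then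
      Tq (x k - x l) (gv b (x k) - gv b (x l)) (gv b (x k) - gv b (x l)) -
      (∑ i, (gq b (x k) i - gq b (x l) i) * (x k i - x l i)) / nr (x k - x l) ^ 3 else 0) +
      (if k < l then (∑ m, (pd m β (x k) - pd m β (x l)) * (x k m - x l m)) /
        nr (x k - x l) ^ 3 else 0) + (if k < l then s1 a b x k l else 0) := by
    intro k l
    split_ifs
    · unfold s1 Tq gv
      simp only [Fin.sum_univ_three, Pi.sub_apply, h1, h2]
      ring
    · ring
  have e2 : ∀ k j, Z j * ((∑ i, gq g (x k) i * (x k i - X j i)) / nr (x k - X j) ^ 3 -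
      Tq (x k - X j) (gv g (x k)) (gv g (x k))) =
      Z j * ((∑ i, gq b (x k) i * (x k i - X j i)) / nr (x k - X j) ^ 3 -
      Tq (x k - X j) (gv b (x k)) (gv b (x k))) -
      Z j * ((∑ m, pd m β (x k) * (x k m - X j m)) / nr (x k - X j) ^ 3) +
      Z j * s2 X a b x k j := by
    intro k j
    unfold s2 Tq gv
    simp only [Fin.sum_univ_three, Pi.sub_apply, h1, h2]
    ring
  unfold D2 Vir
  simp only [e1, e2, Finset.sum_add_distrib, Finset.sum_sub_distrib]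
  ring

end Pool.Agent.Helper20.HV
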