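import Pool.Agent.Helper20.HV.A

/-!
# Row V2R, part 2: bounds
-/

set_option autoImplicit false

namespace Pool.Agent.Helper20.HV

open MeasureTheory Filter Pool.Agent.Helper95 Pool.Agent.Helper95.PW Pool.Agent.Helper95.LN
open Pool.Agent.Helper95.CF Pool.Agent.Helper95.HV Pool.Agent.Helper53.LN Pool.Agent.Helper14.PW

theorem dot_le {v ξ : R3} {V : ℝ} (hV : ∀ i, |v i| ≤ V) : |∑ m, v m * ξ m| ≤ 3 * V * nr ξ := by
  have hV0 : 0 ≤ V := le_trans (abs_nonneg _) (hV 0)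
  refine (Finset.abs_sum_le_sum_abs _ _).trans ?_
  have h2 : ∀ m, |v m * ξ m| ≤ V * nr ξ := fun m => by
    rw [abs_mul]
    exact mul_le_mul (hV m) (VIR_comp ξ m) (abs_nonneg _) hV0
  refine (Finset.sum_le_sum fun m _ => h2 m).trans (le_of_eq ?_)
  rw [Finset.sum_const]
  simp
  ring

/-- the small part of a pair -/
theorem s1_le {n M : ℕ} {X : Fin M → R3} {a b : R3 → ℝ} {K L ρ : ℝ} (hK : 1 ≤ K) (hL : 1 ≤ L)
    (hρ : 0 < ρ) (hρ1 : ρ ≤ 1) (ha : Scale a K L) (hb : Scale b K ρ) {x : Cf n}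
    (hD : Dist X x) {k l : Fin n} (hkl : k ≠ l) :
    s1 a b x k l ≤ 864 * K ^ 2 / ρ / L * (1 / nr (x k - x l)) := by
  have hr : 0 < nr (x k - x l) := lt_of_le_of_ne (VIR_nr0 _) (Ne.symm (hD.1 k l hkl))
  set r := nr (x k - x l) with hrd
  have hK0 : 0 < K := by linarith
  have hL0 : 0 < L := by linarith
  -- differences
  have dA : ∀ i, |(gv a (x k) - gv a (x l)) i| ≤ 3 * (K / L) * r := fun i =>
    lip3 (poe_pd_cd ha.sm i) (fun j y => ha.d2 j i y) _ _
  have dB : ∀ i, |(gv b (x k) - gv b (x l)) i| ≤ 3 * (K / ρ) * r := fun i =>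
    lip3 (poe_pd_cd hb.sm i) (fun j y => hb.d2 j i y) _ _
  have dQ : ∀ i, |gq a (x k) i - gq a (x l) i| ≤ 18 * K ^ 2 / L ^ 2 * r := by
    intro i
    have h1 : ∀ l', |pd l' (pd i a) (x k) * pd l' a (x k) - pd l' (pd i a) (x l) * pd l' a (x l)|
        ≤ 6 * K ^ 2 / L ^ 2 * r := by
      intro l'
      have e1 : pd l' (pd i a) (x k) * pd l' a (x k) - pd l' (pd i a) (x l) * pd l' a (x l) =
          (pd l' (pd i a) (x k) - pd l' (pd i a) (x l)) * pd l' a (x k) +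
          pd l' (pd i a) (x l) * (pd l' a (x k) - pd l' a (x l)) := by ring
      rw [e1]
      refine (abs_add_le _ _).trans ?_
      rw [abs_mul, abs_mul]
      have q1 : |pd l' (pd i a) (x k) - pd l' (pd i a) (x l)| ≤ 3 * (K / L ^ 2) * r :=
        lip3 (poe_pd_cd (poe_pd_cd ha.sm i) l') (fun j y => ha.d3 j l' i y) _ _
      have q2 : |pd l' a (x k) - pd l' a (x l)| ≤ 3 * (K / L) * r :=
        lip3 (poe_pd_cd ha.sm l') (fun j y => ha.d2 j l' y) _ _
      have q3 := mul_le_mul q1 (ha.d1 l' (x k)) (abs_nonneg _) (by positivity)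
      have q4 := mul_le_mul (ha.d2 l' i (x l)) q2 (abs_nonneg _) (by positivity)
      refine (add_le_add q3 q4).trans (le_of_eq ?_)
      field_simp
      ring
    unfold gq
    rw [← Finset.sum_sub_distrib]
    refine (Finset.abs_sum_le_sum_abs _ _).trans ?_
    refine (Finset.sum_le_sum fun l' _ => h1 l').trans (le_of_eq ?_)
    rw [Finset.sum_const]
    simp
    ring
  have t1 := Tq_le dA dA hr
  have t2 := Tq_le dA dB hr
  have t3 : |(∑ i, (gq a (x k) i - gq a (x l) i) * (x k i - x l i)) / r ^ 3| ≤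
      54 * K ^ 2 / L ^ 2 * (1 / r) := by
    rw [abs_div, abs_of_pos (show (0 : ℝ) < r ^ 3 by positivity), div_le_iff₀ (by positivity)]
    have := dot_le (v := fun i => gq a (x k) i - gq a (x l) i) (ξ := x k - x l) dQ
    refine this.trans (le_of_eq ?_)
    rw [← hrd]
    field_simp
    ring
  have e1 : 30 * (3 * (K / L) * r) * (3 * (K / L) * r) / r ^ 3 = 270 * K ^ 2 / L ^ 2 * (1 / r) := by
    field_simp
    ring
  have e2 : 30 * (3 * (K / L) * r) * (3 * (K / ρ) * r) / r ^ 3 =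
      270 * K ^ 2 / ρ / L * (1 / r) := by
    field_simp
    ring
  rw [← hrd, e1] at t1
  rw [← hrd, e2] at t2
  have hLL : K ^ 2 / L ^ 2 ≤ K ^ 2 / ρ / L := by
    rw [div_div]
    refine div_le_div_of_nonneg_left (by positivity) (by positivity) ?_
    nlinarith
  have hLL' := mul_le_mul_of_nonneg_right hLL (show 0 ≤ 1 / r by positivity)
  unfold s1
  rw [← hrd]
  have a1 := (abs_le.1 t1).2
  have a2 := (abs_le.1 t2).1
  have a3 := (abs_le.1 t3).1
  have f1 : 270 * K ^ 2 / L ^ 2 * (1 / r) = 270 * (K ^ 2 / L ^ 2 * (1 / r)) := by ring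
  have f2 : 270 * K ^ 2 / ρ / L * (1 / r) = 270 * (K ^ 2 / ρ / L * (1 / r)) := by ring
  have f3 : 54 * K ^ 2 / L ^ 2 * (1 / r) = 54 * (K ^ 2 / L ^ 2 * (1 / r)) := by ring
  have f4 : 864 * K ^ 2 / ρ / L * (1 / r) = 864 * (K ^ 2 / ρ / L * (1 / r)) := by ring
  rw [f1] at a1
  rw [f2] at a2
  rw [f3] at a3
  rw [f4]
  linarith

/-- the virial of a field which vanishes near the nuclei -/
theorem vir_le (hKK : ST_KK) {n M : ℕ} {X : Fin M → R3} {Z : Fin M → ℝ} {z d A ρ C2 C3 : ℝ}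
    (hz : 0 ≤ z) (hd : 0 < d) (hA : 1 ≤ A) (hρ : 0 < ρ) (hS : Sep X d) (hZ0 : ∀ j, 0 ≤ Z j)
    (hZ : ∀ j, Z j ≤ z) {g : R3 → ℝ} (hg : ContDiff ℝ (⊤ : ℕ∞) g)
    (hH : ∀ (y : R3) (ξ : Fin 3 → ℝ),
      -(A * ∑ i, ξ i ^ 2) ≤ ∑ i, ∑ l, pd i (pd l g) y * ξ i * ξ l)
    (hout : ∀ i y, (∀ j, d ≤ nr (y - X j)) → pd i g y = 0)
    (hin : ∀ i j y, nr (y - X j) < ρ → pd i g y = 0) (h1 : ∀ i y, |pd i g y| ≤ A)
    {x : Cf n} (hD : Dist X x) {Y : ℝ}
    (hC2 : ∑ i, cnt X (3 / 2 * d) x i ^ 2 ≤ C2 * Y) {e : Fin M → ℝ}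
    (he : ∀ i m y, nr (y - X i) ≤ d → |farE d X Z x i m y| ≤ e i)
    (hC3 : ∑ i, e i ^ 2 ≤ C3 * Y) (hR : Rem (d / 8) x ≤ Y) (hzM : z ^ 2 * M ≤ Y) :
    -((A + A * (16 / d) * C2 + 3 / 2 * A * (C3 + C2) + 3 * A / ρ ^ 2 * (1 + C2)) * Y) ≤
      2 * Vir X Z g x := by
  have b1 := VIR_b1 hKK hd hA hS hg hH hD
  have b2 := VIR_b2 hd hA hS Z hout h1 x he
  have hA0 : 0 ≤ A := by linarith
  have b3 : ∑ i, ∑ k, sw X (3 / 2 * d) x i k * (Z i * na X g x k i) ≤
      3 * A / ρ ^ 2 * (z * ∑ i, cnt X (3 / 2 * d) x i) := by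
    have key : ∀ i k, sw X (3 / 2 * d) x i k * (Z i * na X g x k i) ≤
        3 * A / ρ ^ 2 * (z * sw X (3 / 2 * d) x i k) := by
      intro i k
      have s0 := sw_nonneg X (3 / 2 * d) x i k
      have h3 : na X g x k i ≤ 3 * A / ρ ^ 2 := by
        by_cases h : nr (x k - X i) < ρ
        · have : na X g x k i = 0 := by
            unfold na
            simp [hin _ i _ h]
          rw [this]
          positivity
        · push Not at h
          have hr : 0 < nr (x k - X i) := by linarith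
          unfold na
          rw [div_le_iff₀ (by positivity)]
          have h4 := dot_le (v := fun m => pd m g (x k)) (ξ := x k - X i) (fun m => h1 m (x k))
          have h5 := (le_abs_self _).trans h4
          refine h5.trans ?_
          rw [div_mul_eq_mul_div, le_div_iff₀ (by positivity)]
          have h6 : ρ ^ 2 ≤ nr (x k - X i) ^ 2 := by gcongr
          have h7 : 0 ≤ 3 * A * nr (x k - X i) := by positivity
          have h8 := mul_le_mul_of_nonneg_left h6 h7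
          calc _ ≤ _ := h8
            _ = _ := by ring
      have h9 : Z i * na X g x k i ≤ z * (3 * A / ρ ^ 2) := by
        calc Z i * na X g x k i ≤ Z i * (3 * A / ρ ^ 2) :=
              mul_le_mul_of_nonneg_left h3 (hZ0 i)
          _ ≤ z * (3 * A / ρ ^ 2) := mul_le_mul_of_nonneg_right (hZ i) (by positivity)
      have h10 := mul_le_mul_of_nonneg_left h9 s0
      linarith
    refine (Finset.sum_le_sum fun i _ => Finset.sum_le_sum fun k _ => key i k).trans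
      (le_of_eq ?_)
    simp only [← Finset.mul_sum]
    rfl
  have hc : z * ∑ i, cnt X (3 / 2 * d) x i ≤ z ^ 2 * M + ∑ i, cnt X (3 / 2 * d) x i ^ 2 := by
    have h5 : ∀ i, z * cnt X (3 / 2 * d) x i ≤ z ^ 2 + cnt X (3 / 2 * d) x i ^ 2 := fun i => by
      nlinarith [sq_nonneg (z - cnt X (3 / 2 * d) x i), sq_nonneg z,
        sq_nonneg (cnt X (3 / 2 * d) x i)]
    rw [Finset.mul_sum]
    refine (Finset.sum_le_sum fun i _ => h5 i).trans (le_of_eq ?_)
    rw [Finset.sum_add_distrib]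
    simp
    ring
  have hc2 : z * ∑ i, cnt X (3 / 2 * d) x i ≤ (1 + C2) * Y := by linarith
  have m1 := mul_le_mul_of_nonneg_left hR hA0
  have m2 := mul_le_mul_of_nonneg_left hC2 (by positivity : 0 ≤ A * (16 / d))
  have m3 := mul_le_mul_of_nonneg_left (add_le_add hC3 hC2) (by positivity : 0 ≤ 3 / 2 * A)
  have m4 := mul_le_mul_of_nonneg_left hc2 (by positivity : 0 ≤ 3 * A / ρ ^ 2)
  rw [VIR_id hd hS Z hout x]
  have e1 : (A + A * (16 / d) * C2 + 3 / 2 * A * (C3 + C2) + 3 * A / ρ ^ 2 * (1 + C2)) * Y =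
      A * Y + A * (16 / d) * (C2 * Y) + 3 / 2 * A * (C3 * Y + C2 * Y) +
        3 * A / ρ ^ 2 * ((1 + C2) * Y) := by ring
  rw [e1]
  linarith

end Pool.Agent.Helper20.HV
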