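import Pool.Agent.Helper20.HV.B
import Pool.Agent.Helper71.HV.Sub

/-!
# Row V2R: parts VL and PE
-/

set_option autoImplicit false

namespace Pool.Agent.Helper20.HV

open MeasureTheory Filter Pool.Agent.Helper95 Pool.Agent.Helper95.PW Pool.Agent.Helper95.LN
open Pool.Agent.Helper95.CF Pool.Agent.Helper95.HV Pool.Agent.Helper53.LN Pool.Agent.Helper14.PW
open Pool.Agent.Helper71.HV

theorem pd_neg (g : R3 → ℝ) (i : Fin 3) (y : R3) : pd i (fun z => -g z) y = -pd i g y := by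
  unfold pd
  rw [fderiv_fun_neg]
  simp

theorem pd_pd_neg (g : R3 → ℝ) (i l : Fin 3) (y : R3) :
    pd i (pd l (fun z => -g z)) y = -pd i (pd l g) y := by
  have h : pd l (fun z => -g z) = fun z => -pd l g z := by
    funext z
    exact pd_neg g l z
  rw [h]
  exact pd_neg _ i y

theorem Vir_neg {n M : ℕ} (X : Fin M → R3) (Z : Fin M → ℝ) (g : R3 → ℝ) (x : Cf n) :
    Vir X Z (fun y => -g y) x = -Vir X Z g x := by
  have e1 : ∀ k l, (if k < l then (∑ m, (pd m (fun y => -g y) (x k) -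
      pd m (fun y => -g y) (x l)) * (x k m - x l m)) / nr (x k - x l) ^ 3 else 0) =
      -(if k < l then (∑ m, (pd m g (x k) - pd m g (x l)) * (x k m - x l m)) /
        nr (x k - x l) ^ 3 else 0) := by
    intro k l
    split_ifs
    · simp only [pd_neg, Fin.sum_univ_three]
      ring
    · ring
  have e2 : ∀ k j, Z j * ((∑ m, pd m (fun y => -g y) (x k) * (x k m - X j m)) /
      nr (x k - X j) ^ 3) = -(Z j * ((∑ m, pd m g (x k) * (x k m - X j m)) /
      nr (x k - X j) ^ 3)) := by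
    intro k j
    simp only [pd_neg, Fin.sum_univ_three]
    ring
  unfold Vir
  simp only [e1, e2, Finset.sum_neg_distrib]
  ring

theorem hess_le {f : R3 → ℝ} {A : ℝ} {y : R3} (h : ∀ i l, |pd i (pd l f) y| ≤ A)
    (ξ : Fin 3 → ℝ) : -(3 * A * ∑ i, ξ i ^ 2) ≤ ∑ i, ∑ l, pd i (pd l f) y * ξ i * ξ l := by
  have h1 : ∀ i l, -(A * ((ξ i ^ 2 + ξ l ^ 2) / 2)) ≤ pd i (pd l f) y * ξ i * ξ l := by
    intro i l
    have h2 : |pd i (pd l f) y * ξ i * ξ l| ≤ A * ((ξ i ^ 2 + ξ l ^ 2) / 2) := by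
      rw [mul_assoc, abs_mul]
      refine mul_le_mul (h i l) ?_ (abs_nonneg _) (le_trans (abs_nonneg _) (h i l))
      rw [abs_le]
      constructor <;> nlinarith [sq_nonneg (ξ i + ξ l), sq_nonneg (ξ i - ξ l)]
    exact (abs_le.1 h2).1
  refine le_trans (le_of_eq ?_) (Finset.sum_le_sum fun i _ => Finset.sum_le_sum fun l _ => h1 i l)
  simp only [Fin.sum_univ_three]
  ring

theorem Rem_nonneg (hKK : ST_KK) {n M : ℕ} {X : Fin M → R3} {d : ℝ} (hd : 0 < d) {x : Cf n}
    (hD : Dist X x) : 0 ≤ Rem (d / 8) x := by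
  unfold Rem
  refine Finset.sum_nonneg fun k _ => Finset.sum_nonneg fun l _ => ?_
  split_ifs with h
  · have := (hKK (d / 8) (x k - x l) (by positivity)).2.1 (hD.1 k l h.ne)
    linarith
  · exact le_rfl

theorem near1_nonneg {n M : ℕ} (X : Fin M → R3) (d : ℝ) (x : Cf n) :
    0 ≤ ∑ k, near1 X d (x k) := by
  refine Finset.sum_nonneg fun k _ => ?_
  unfold near1
  refine Finset.sum_nonneg fun j _ => ?_
  have := VIR_nr0 (x k - X j)
  split_ifs <;> positivity

/-- part VL -/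
theorem VL (h1 : ST_NBZ) (h2 : ST_FFZ) (h4 : ST_KK) : ST_VL := by
  intro d hd hd1 A hA
  obtain ⟨C2, hC2, k2⟩ := h1 d hd hd1
  obtain ⟨C3, hC3, k3⟩ := h2 d hd hd1
  have hA' : 1 ≤ 3 * A := by linarith
  refine ⟨(3 * A + 3 * A * (16 / d) * C2 + 3 / 2 * (3 * A) * (C3 + C2) +
    3 * (3 * A) / (d / 8) ^ 2 * (1 + C2)), by positivity, ?_⟩
  intro z n M X Z g x hX hg hout hA1 hA2 hin hD
  obtain ⟨e, he, q3⟩ := k3 z n M X Z x hX
  have q2 := k2 z n M X Z x hX
  have hz : 0 ≤ z := by linarith [hX.z1]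
  have hR := Rem_nonneg h4 hd hD
  have hD0 := VIR_Dn (d / 8) X Z x
  have hN1 := mul_nonneg hz (near1_nonneg X d x)
  have hzM : 0 ≤ z ^ 2 * (M : ℝ) := by positivity
  have L1 : z ^ 2 * M + Dn (d / 8) X Z x ≤ Loc d z X Z x := by
    unfold Loc
    linarith
  have L2 : Rem (d / 8) x ≤ Loc d z X Z x := by
    unfold Loc
    linarith
  have L3 : z ^ 2 * M ≤ Loc d z X Z x := by linarith
  have hL0 : 0 ≤ Loc d z X Z x := by linarith
  have r2 := q2.trans (mul_le_mul_of_nonneg_left L1 hC2.le)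
  have r3 := q3.trans (mul_le_mul_of_nonneg_left L1 hC3.le)
  have key := vir_le h4 (g := fun y => -g y) (ρ := d / 8) (A := 3 * A) hz hd hA' (by positivity)
    hX.sep hX.nuc.1 hX.le hg.neg
    (fun y ξ => hess_le (fun i l => by rw [pd_pd_neg, abs_neg]; exact hA2 i l y) ξ)
    (fun i y h => by rw [pd_neg, hout i y h, neg_zero])
    (fun i j y h => by rw [pd_neg, hin j y h i, neg_zero])
    (fun i y => by rw [pd_neg, abs_neg]; linarith [hA1 i y]) hD r2 he r3 L2 L3
  rw [Vir_neg] at key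
  set P := (3 * A + 3 * A * (16 / d) * C2 + 3 / 2 * (3 * A) * (C3 + C2) +
    3 * (3 * A) / (d / 8) ^ 2 * (1 + C2)) with hP
  have hP0 : 0 ≤ P := by positivity
  have hn : 0 ≤ P * (z * n) := by positivity
  have hPL : 0 ≤ P * Loc d z X Z x := by positivity
  rw [mul_add]
  linarith

/-- part PE -/
theorem PE : ST_PE := by
  refine ⟨864, by norm_num, ?_⟩
  intro K L ρ a b y y' hK hL hρ hρ1 ha hb hr0
  have hr : 0 < nr (y - y') := lt_of_le_of_ne (VIR_nr0 _) (Ne.symm hr0)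
  set r := nr (y - y') with hrd
  have hK0 : 0 < K := by linarith
  have hL0 : 0 < L := by linarith
  have dA : ∀ i, |(gv a y - gv a y') i| ≤ 3 * (K / L) * r := fun i =>
    lip3 (poe_pd_cd ha.sm i) (fun j y => ha.d2 j i y) _ _
  have dB : ∀ i, |(gv b y - gv b y') i| ≤ 3 * (K / ρ) * r := fun i =>
    lip3 (poe_pd_cd hb.sm i) (fun j y => hb.d2 j i y) _ _
  have dQ : ∀ i, |gq a y i - gq a y' i| ≤ 18 * K ^ 2 / L ^ 2 * r := by
    intro i
    have h1 : ∀ l', |pd l' (pd i a) y * pd l' a y - pd l' (pd i a) y' * pd l' a y'|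
        ≤ 6 * K ^ 2 / L ^ 2 * r := by
      intro l'
      have e1 : pd l' (pd i a) y * pd l' a y - pd l' (pd i a) y' * pd l' a y' =
          (pd l' (pd i a) y - pd l' (pd i a) y') * pd l' a y +
          pd l' (pd i a) y' * (pd l' a y - pd l' a y') := by ring
      rw [e1]
      refine (abs_add_le _ _).trans ?_
      rw [abs_mul, abs_mul]
      have q1 : |pd l' (pd i a) y - pd l' (pd i a) y'| ≤ 3 * (K / L ^ 2) * r :=
        lip3 (poe_pd_cd (poe_pd_cd ha.sm i) l') (fun j y => ha.d3 j l' i y) _ _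
      have q2 : |pd l' a y - pd l' a y'| ≤ 3 * (K / L) * r :=
        lip3 (poe_pd_cd ha.sm l') (fun j y => ha.d2 j l' y) _ _
      have q3 := mul_le_mul q1 (ha.d1 l' y) (abs_nonneg _) (by positivity)
      have q4 := mul_le_mul (ha.d2 l' i y') q2 (abs_nonneg _) (by positivity)
      refine (add_le_add q3 q4).trans (le_of_eq ?_)
      field_simp
      ring
    unfold gq
    rw [← Finset.sum_sub_distrib]
    refine (Finset.abs_sum_le_sum_abs _ _).trans ?_
    refine (Finset.sum_le_sum fun l' _ => h1 l').trans (le_of_eq ?_)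
    rw [Finset.sum_const]
    simp
    ring
  have t1 := Tq_le dA dA hr
  have t2 := Tq_le dA dB hr
  have t3 : |(∑ i, (gq a y i - gq a y' i) * (y i - y' i)) / r ^ 3| ≤
      54 * K ^ 2 / L ^ 2 * (1 / r) := by
    rw [abs_div, abs_of_pos (show (0 : ℝ) < r ^ 3 by positivity), div_le_iff₀ (by positivity)]
    have := dot_le (v := fun i => gq a y i - gq a y' i) (ξ := y - y') dQ
    refine this.trans (le_of_eq ?_)
    rw [← hrd]
    field_simp
    ring
  have e1 : 30 * (3 * (K / L) * r) * (3 * (K / L) * r) / r ^ 3 = 270 * K ^ 2 / L ^ 2 * (1 / r) := by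
    field_simp
    ring
  have e2 : 30 * (3 * (K / L) * r) * (3 * (K / ρ) * r) / r ^ 3 =
      270 * K ^ 2 / ρ / L * (1 / r) := by
    field_simp
    ring
  rw [← hrd, e1] at t1
  rw [← hrd, e2] at t2
  have hLL : K ^ 2 / L ^ 2 ≤ K ^ 2 / ρ / L := by
    rw [div_div]
    refine div_le_div_of_nonneg_left (by positivity) (by positivity) ?_
    nlinarith
  have hLL' := mul_le_mul_of_nonneg_right hLL (show 0 ≤ 1 / r by positivity)
  have f1 : 270 * K ^ 2 / L ^ 2 * (1 / r) = 270 * (K ^ 2 / L ^ 2 * (1 / r)) := by ring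
  have f2 : 270 * K ^ 2 / ρ / L * (1 / r) = 270 * (K ^ 2 / ρ / L * (1 / r)) := by ring
  have f3 : 54 * K ^ 2 / L ^ 2 * (1 / r) = 54 * (K ^ 2 / L ^ 2 * (1 / r)) := by ring
  have f4 : 864 * K ^ 2 / (ρ * L) * (1 / r) = 864 * (K ^ 2 / ρ / L * (1 / r)) := by
    rw [div_div (K ^ 2)]
    ring
  rw [f1] at t1
  rw [f2] at t2
  rw [f3] at t3
  rw [f4]
  linarith

end Pool.Agent.Helper20.HV
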