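import Pool.Agent.Helper20.HV.C

/-!
# Row V2R: assembly
-/

set_option autoImplicit false

namespace Pool.Agent.Helper20.HV

open MeasureTheory Filter Pool.Agent.Helper95 Pool.Agent.Helper95.PW Pool.Agent.Helper95.LN
open Pool.Agent.Helper95.CF Pool.Agent.Helper95.HV Pool.Agent.Helper53.LN Pool.Agent.Helper14.PW
open Pool.Agent.Helper71.HV

theorem nr_cont (c : R3) : Continuous fun y : R3 => nr (y - c) := by
  unfold nr
  simp only [Pi.sub_apply]
  fun_prop

theorem pd_ev_const {f : R3 → ℝ} {y : R3} {c : ℝ} (h : f =ᶠ[nhds y] fun _ => c) (i : Fin 3) :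
    pd i f y = 0 := by
  unfold pd
  rw [h.fderiv_eq]
  simp

theorem pd_ev_coord {f : R3 → ℝ} {y : R3} {m : Fin 3} (h : f =ᶠ[nhds y] fun z => z m)
    (i : Fin 3) : pd i f y = if i = m then 1 else 0 := by
  unfold pd
  rw [h.fderiv_eq]
  have h1 : HasFDerivAt (fun z : R3 => z m)
      (ContinuousLinearMap.proj (R := ℝ) (φ := fun _ : Fin 3 => ℝ) m) y :=
    (ContinuousLinearMap.proj (R := ℝ) (φ := fun _ : Fin 3 => ℝ) m).hasFDerivAt
  rw [h1.fderiv]
  simp [Pi.single_apply, eq_comm]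

theorem Scale_mono {g : R3 → ℝ} {K K' r : ℝ} (h : Scale g K r) (hr : 0 < r) (hK : K ≤ K') :
    Scale g K' r := by
  refine ⟨h.sm, h.cs, fun i y => (h.d1 i y).trans hK, fun i j y => (h.d2 i j y).trans ?_,
    fun i j l y => (h.d3 i j l y).trans ?_, fun i j l m y => (h.d4 i j l m y).trans ?_⟩ <;>
  gcongr

theorem V2R_of (hI : ST_V2I) (hVL : ST_VL) (hPE : ST_PE) (hNE : ST_NE) (hFLD : ST_FLD)
    (hCUT : ST_CUT) (hKK : ST_KK) : ST_V2R := by
  intro d hd hd1
  obtain ⟨K1, hK1, f1⟩ := hFLD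
  obtain ⟨K2, hK2, c1, -⟩ := hCUT
  obtain ⟨K, hKK1, hKK2⟩ : ∃ K : ℝ, K1 ≤ K ∧ K2 ≤ K := ⟨max K1 K2, le_max_left _ _, le_max_right _ _⟩
  have hK : 1 ≤ K := hK1.trans hKK1
  have hK0 : 0 < K := by linarith
  obtain ⟨ρ, hρd⟩ : ∃ ρ : ℝ, ρ = d / 8 := ⟨_, rfl⟩
  have hρ : 0 < ρ := by rw [hρd]; positivity
  have hρ1 : ρ ≤ 1 := by rw [hρd]; linarith
  have hA : 1 ≤ K / ρ ^ 2 := by
    rw [le_div_iff₀ (by positivity)]
    have : ρ ^ 2 ≤ 1 := by nlinarith
    linarith
  have hA2 : K / ρ ≤ K / ρ ^ 2 := by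
    refine div_le_div_of_nonneg_left hK0.le (by positivity) ?_
    nlinarith
  obtain ⟨CI, hCI, kI⟩ := hI d hd hd1
  obtain ⟨CV, hCV, kV⟩ := hVL d hd hd1 (K / ρ ^ 2) hA
  obtain ⟨CP, hCP, kP⟩ := hPE
  obtain ⟨CN, hCN, kN⟩ := hNE d hd hd1
  refine ⟨CI * K ^ 2 / ρ ^ 2 + 6 * CV + 3 * CP * K ^ 2 / ρ + CN, by positivity, ?_⟩
  intro z L Λ n M X Z x hX hL hΛ hXL hΛs hD
  have hL0 : 0 < L := by linarith
  have hz : 0 ≤ z := by linarith [hX.z1]
  -- the functions
  have sa : ∀ m, Scale (gm m L) K L := fun m => Scale_mono (c1 m L hL0).1 hL0 hKK2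
  have ga : ∀ m y, nr y ≤ L → gm m L y = y m := fun m => (c1 m L hL0).2.1
  have ff := fun m : Fin 3 => f1 M X d ρ ρ m hd hX.sep hρ le_rfl (by rw [hρd]; linarith)
  have sb : ∀ m, Scale (gN X m ρ) K ρ := fun m => Scale_mono (ff m).1 hρ hKK1
  have bin : ∀ m j y, nr (y - X j) < ρ → ∀ i, pd i (gN X m ρ) y = if i = m then 1 else 0 :=
    fun m => (ff m).2.2.1
  have bout : ∀ m y, (∀ j, 2 * ρ < nr (y - X j)) → ∀ i, pd i (gN X m ρ) y = 0 :=
    fun m => (ff m).2.2.2.1
  have bout2 : ∀ m y, (∀ j, 2 * ρ < nr (y - X j)) → ∀ l i, pd l (pd i (gN X m ρ)) y = 0 := by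
    intro m y hy l i
    refine pd_ev_const (c := 0) ?_ l
    have : ∀ᶠ w in nhds y, ∀ j, 2 * ρ < nr (w - X j) := by
      refine Filter.eventually_all.2 fun j => ?_
      exact (nr_cont (X j)).continuousAt.eventually (lt_mem_nhds (hy j))
    filter_upwards [this] with w hw
    exact bout m w hw i
  have bin2 : ∀ m j y, nr (y - X j) < ρ → ∀ l i, pd l (pd i (gN X m ρ)) y = 0 := by
    intro m j y hy l i
    refine pd_ev_const (c := if i = m then 1 else 0) ?_ l
    have : ∀ᶠ w in nhds y, nr (w - X j) < ρ :=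
      (nr_cont (X j)).continuousAt.eventually (gt_mem_nhds hy)
    filter_upwards [this] with w hw
    exact bin m j w hw i
  have c0 : Continuous nr := by
    have := nr_cont 0
    simpa using this
  have a1 : ∀ m y, nr y < L → ∀ i, pd i (gm m L) y = if i = m then 1 else 0 := by
    intro m y hy i
    refine pd_ev_coord ?_ i
    have : ∀ᶠ w in nhds y, nr w < L := c0.continuousAt.eventually (gt_mem_nhds hy)
    filter_upwards [this] with w hw
    exact ga m w hw.le
  have a2 : ∀ m y, nr y < L → ∀ l i, pd l (pd i (gm m L)) y = 0 := by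
    intro m y hy l i
    refine pd_ev_const (c := if i = m then 1 else 0) ?_ l
    have : ∀ᶠ w in nhds y, nr w < L := c0.continuousAt.eventually (gt_mem_nhds hy)
    filter_upwards [this] with w hw
    exact a1 m w hw i
  have far : ∀ y, L ≤ nr y → ∀ j, 2 * ρ < nr (y - X j) := by
    intro y hy j
    have h1 : nr y ≤ nr (y - X j) + nr (X j) := by
      have h3 := Pool.Agent.Helper82.PN.pgb_tri y 0 (X j)
      rw [sub_zero, sub_zero, VIR_sym (X j) y] at h3
      exact h3
    have h2 := hXL j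
    have : ρ ≤ 1 / 8 := by rw [hρd]; linarith
    linarith
  have h1 : ∀ m y i, pd i (fun y => gm m L y - gN X m ρ y) y =
      pd i (gm m L) y - pd i (gN X m ρ) y := fun m y i => pd_sub (sa m).sm (sb m).sm i y
  have h2 : ∀ m y i, gq (fun y => gm m L y - gN X m ρ y) y i =
      gq (gm m L) y i + gq (gN X m ρ) y i - pd i (pd m (gN X m ρ)) y := by
    intro m y i
    unfold gq
    simp only [h1, pd_pd_sub (sa m).sm (sb m).sm]
    rcases lt_or_ge (nr y) L with h | h
    · simp only [a2 m y h, a1 m y h, zero_mul, Finset.sum_const_zero, zero_sub, zero_add]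
      rw [pd_comm (sb m).sm i m y]
      have e : ∀ l, -pd l (pd i (gN X m ρ)) y * ((if l = m then 1 else 0) - pd l (gN X m ρ) y) =
          pd l (pd i (gN X m ρ)) y * pd l (gN X m ρ) y -
            (if l = m then pd l (pd i (gN X m ρ)) y else 0) := by
        intro l
        split_ifs <;> ring
      rw [Finset.sum_congr rfl (fun l _ => e l), Finset.sum_sub_distrib]
      simp
    · simp only [bout2 m y (far y h), bout m y (far y h)]
      simp
  -- the split
  have key : ∀ m, D2 X Z (fun y => gm m L y - gN X m (d / 8) y) x =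
      D2 X Z (gN X m ρ) x + 2 * Vir X Z (pd m (gN X m ρ)) x +
      (∑ k, ∑ l, if k < l then s1 (gm m L) (gN X m ρ) x k l else 0) +
      ∑ k, ∑ j, Z j * s2 X (gm m L) (gN X m ρ) x k j := by
    intro m
    rw [← hρd]
    exact D2_split X Z (h1 m) (h2 m) x
  rw [Finset.sum_congr rfl (fun m _ => key m), Finset.sum_add_distrib, Finset.sum_add_distrib,
    Finset.sum_add_distrib]
  -- part one
  have p1 : ∑ m, D2 X Z (gN X m ρ) x ≤ CI * K ^ 2 / ρ ^ 2 * Loc d z X Z x := by
    refine kI z K ρ n M X Z (fun m => gN X m ρ) x hX hK hρ (by rw [hρd]; linarith) sb bin ?_ hD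
    intro m y hy i
    refine bout m y (fun j => ?_) i
    have := hy j
    rw [hρd]
    linarith
  -- part two
  have p2 : ∑ m, 2 * Vir X Z (pd m (gN X m ρ)) x ≤ 6 * CV * (Loc d z X Z x + z * n) := by
    have q : ∀ m : Fin 3, 2 * Vir X Z (pd m (gN X m ρ)) x ≤ 2 * (CV * (Loc d z X Z x + z * n)) := by
      intro m
      refine mul_le_mul_of_nonneg_left ?_ (by norm_num)
      refine kV z n M X Z (pd m (gN X m ρ)) x hX (poe_pd_cd (sb m).sm m) ?_ ?_ ?_ ?_ hD
      · intro i y hy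
        refine bout2 m y (fun j => ?_) i m
        have := hy j
        rw [hρd]
        linarith
      · intro i y
        exact ((sb m).d2 i m y).trans hA2
      · intro i l y
        exact (sb m).d3 i l m y
      · intro j y hy i
        rw [← hρd] at hy
        exact bin2 m j y hy i m
    refine (Finset.sum_le_sum fun m _ => q m).trans (le_of_eq ?_)
    rw [Finset.sum_const]
    simp
    ring
  -- part three
  have p3 : ∑ m, (∑ k, ∑ l, if k < l then s1 (gm m L) (gN X m ρ) x k l else 0) ≤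
      3 * CP * K ^ 2 / ρ * (rep x / L) := by
    have q : ∀ m : Fin 3, (∑ k, ∑ l, if k < l then s1 (gm m L) (gN X m ρ) x k l else 0) ≤
        CP * K ^ 2 / (ρ * L) * rep x := by
      intro m
      unfold rep
      rw [Finset.mul_sum]
      refine Finset.sum_le_sum fun k _ => ?_
      rw [Finset.mul_sum]
      refine Finset.sum_le_sum fun l _ => ?_
      split_ifs with hkl
      · have := kP K L ρ (gm m L) (gN X m ρ) (x k) (x l) hK hL hρ hρ1 (sa m) (sb m)
          (hD.1 k l hkl.ne)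
        refine le_trans ?_ this
        unfold s1
        have b1 := le_abs_self (Tq (x k - x l) (gv (gm m L) (x k) - gv (gm m L) (x l))
          (gv (gm m L) (x k) - gv (gm m L) (x l)))
        have b2 := neg_abs_le (Tq (x k - x l) (gv (gm m L) (x k) - gv (gm m L) (x l))
          (gv (gN X m ρ) (x k) - gv (gN X m ρ) (x l)))
        have b3 := neg_abs_le ((∑ i, (gq (gm m L) (x k) i - gq (gm m L) (x l) i) *
          (x k i - x l i)) / nr (x k - x l) ^ 3)
        linarith
      · simp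
    refine (Finset.sum_le_sum fun m _ => q m).trans (le_of_eq ?_)
    rw [Finset.sum_const]
    simp
    field_simp
  -- part four
  have p4 : ∑ m, (∑ k, ∑ j, Z j * s2 X (gm m L) (gN X m ρ) x k j) ≤
      CN * (z * (1 + Λ) * n) + CN * ((∑ k, pot X Z (x k)) / L) := by
    rw [Finset.sum_comm]
    have q : ∀ k, ∑ m, ∑ j, Z j * s2 X (gm m L) (gN X m ρ) x k j ≤
        CN * (z * (1 + Λ)) + CN / L * pot X Z (x k) := by
      intro k
      have := kN z L Λ n M X Z (x k) hX hL hΛ hXL hΛs (fun j => hD.2 k j)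
      rw [← hρd] at this
      exact this
    refine (Finset.sum_le_sum fun k _ => q k).trans (le_of_eq ?_)
    rw [Finset.sum_add_distrib, Finset.sum_const, ← Finset.mul_sum]
    simp
    ring
  -- signs
  have hR := Rem_nonneg (X := X) hKK hd hD
  have hD0 := VIR_Dn (d / 8) X Z x
  have hN1 := mul_nonneg hz (near1_nonneg X d x)
  have hLoc : 0 ≤ Loc d z X Z x := by
    unfold Loc
    have : 0 ≤ z ^ 2 * (M : ℝ) := by positivity
    linarith
  have hrep : 0 ≤ rep x / L := by
    refine div_nonneg ?_ hL0.le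
    unfold rep
    refine Finset.sum_nonneg fun k _ => Finset.sum_nonneg fun l _ => ?_
    have := VIR_nr0 (x k - x l)
    split_ifs <;> positivity
  have hpot : 0 ≤ (∑ k, pot X Z (x k)) / L := by
    refine div_nonneg ?_ hL0.le
    unfold pot
    refine Finset.sum_nonneg fun k _ => Finset.sum_nonneg fun j _ => ?_
    exact div_nonneg (hX.nuc.1 j) (VIR_nr0 _)
  have hW : 0 ≤ z * (1 + Λ) * n := by positivity
  have hVW : z * n ≤ z * (1 + Λ) * n := by
    have : 0 ≤ z * Λ * n := by positivity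
    linarith
  have hP1 : 0 ≤ CI * K ^ 2 / ρ ^ 2 := by positivity
  have hP3 : 0 ≤ 3 * CP * K ^ 2 / ρ := by positivity
  set P1 := CI * K ^ 2 / ρ ^ 2
  set P3 := 3 * CP * K ^ 2 / ρ
  set R := rep x / L with hRd
  set Q := (∑ k, pot X Z (x k)) / L with hQd
  set W := z * (1 + Λ) * n
  have e5 : (P1 + 6 * CV + P3 + CN) / L * (rep x + ∑ k, pot X Z (x k)) =
      (P1 + 6 * CV + P3 + CN) * (R + Q) := by
    rw [hRd, hQd]
    field_simp
  rw [e5]
  have g1 : (P1 + 6 * CV) * Loc d z X Z x ≤ (P1 + 6 * CV + P3 + CN) * Loc d z X Z x :=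
    mul_le_mul_of_nonneg_right (by linarith) hLoc
  have g2 : 6 * CV * (z * n) ≤ 6 * CV * W := mul_le_mul_of_nonneg_left hVW (by positivity)
  have g3 : (6 * CV + CN) * W ≤ (P1 + 6 * CV + P3 + CN) * W :=
    mul_le_mul_of_nonneg_right (by linarith) hW
  have g4 : P3 * R ≤ (P1 + 6 * CV + P3 + CN) * R :=
    mul_le_mul_of_nonneg_right (by linarith) hrep
  have g5 : CN * Q ≤ (P1 + 6 * CV + P3 + CN) * Q :=
    mul_le_mul_of_nonneg_right (by linarith) hpot
  have e6 : (P1 + 6 * CV) * Loc d z X Z x = P1 * Loc d z X Z x + 6 * CV * Loc d z X Z x := by ring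
  have e7 : (6 * CV + CN) * W = 6 * CV * W + CN * W := by ring
  have e8 : 6 * CV * (Loc d z X Z x + z * n) = 6 * CV * Loc d z X Z x + 6 * CV * (z * n) := by ring
  rw [e8] at p2
  rw [e6] at g1
  rw [e7] at g3
  rw [mul_add (P1 + 6 * CV + P3 + CN), mul_add (P1 + 6 * CV + P3 + CN)]
  linarith

end Pool.Agent.Helper20.HV
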