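import Pool.Agent.Helper20.HV.V2R
import Pool.Agent.Helper39.HV.NE
import Pool.Agent.Helper93.HV.V2I

/-!
# Row V2R
-/

set_option autoImplicit false

namespace Pool.Agent.Helper20.HV

open Pool.Agent.Helper95 Pool.Agent.Helper95.PW Pool.Agent.Helper95.LN
open Pool.Agent.Helper95.CF Pool.Agent.Helper95.HV

theorem V2R (h1 : ST_NBZ) (h2 : ST_FFZ) (h3 : ST_FGZ) (h4 : ST_DIP) (h5 : ST_KK) (h6 : ST_FLD)
    (h7 : ST_CUT) : ST_V2R :=
  V2R_of (Pool.Agent.Helper93.HV.V2I h1 h2 h3 h4 h5) (VL h1 h2 h5) PE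
    (Pool.Agent.Helper39.HV.NE h6 h7) h6 h7 h5

end Pool.Agent.Helper20.HV
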